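import Mathlib

/-!
# Sublinearly Morse rays and lower divergence: the definitions

All notions are those of the problem file `MP_395cce_al`.
-/

open Set Filter Topology
open scoped ENNReal NNReal

namespace Pool.Agent.SublinMorse


variable {X : Type*} [MetricSpace X]

/-- `X` is a geodesic space: any two points are joined by an isometrically embedded segment. -/
def IsGeodesicSpace (X : Type*) [MetricSpace X] : Prop :=
  ∀ x y : X, ∃ γ : ℝ → X, γ 0 = x ∧ γ (dist x y) = y ∧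
    ∀ s ∈ Icc 0 (dist x y), ∀ t ∈ Icc 0 (dist x y), dist (γ s) (γ t) = |s - t|

/-- `b` restricted to `[0, ∞)` is a geodesic ray (isometric embedding of `[0, ∞)`). -/
def IsGeodesicRay (b : ℝ → X) : Prop :=
  ∀ s ∈ Ici (0 : ℝ), ∀ t ∈ Ici (0 : ℝ), dist (b s) (b t) = |s - t|

/-- A sublinear function `κ : [0, ∞) → [1, ∞)` which, up to a bounded multiplicative factor,
is monotone increasing and concave. -/
structure IsSublinearGauge (κ : ℝ → ℝ) : Prop where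
  one_le : ∀ t ∈ Ici (0 : ℝ), 1 ≤ κ t
  sublinear : Tendsto (fun t => κ t / t) atTop (𝓝 0)
  comparable : ∃ κ₀ : ℝ → ℝ, ∃ C : ℝ, 0 < C ∧ MonotoneOn κ₀ (Ici 0) ∧ ConcaveOn ℝ (Ici 0) κ₀ ∧
    ∀ t ∈ Ici (0 : ℝ), κ₀ t ≤ κ t ∧ κ t ≤ C * κ₀ t

/-- The `κ`-neighbourhood `{x : d(x, Z) ≤ n κ(‖x‖)}`, `‖x‖ = d(o, x)`. -/
def kappaNhd (κ : ℝ → ℝ) (o : X) (Z : Set X) (n : ℝ) : Set X :=
  {x | Metric.infDist x Z ≤ n * κ (dist o x)}

/-- `β` restricted to `[s, e]` is a `(q, Q)`-quasi-geodesic. -/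
def IsQuasiGeodesic (q Q s e : ℝ) (β : ℝ → X) : Prop :=
  ∀ u ∈ Icc s e, ∀ v ∈ Icc s e,
    |u - v| / q - Q ≤ dist (β u) (β v) ∧ dist (β u) (β v) ≤ q * |u - v| + Q

/-- The geodesic ray `b` is `κ`-Morse. -/
def IsKappaMorse (κ : ℝ → ℝ) (b : ℝ → X) : Prop :=
  ∃ m : ℝ → ℝ → ℝ, (∀ q Q, 0 ≤ m q Q) ∧
    ∀ q Q : ℝ, 1 ≤ q → 0 ≤ Q → ∀ s e : ℝ, s ≤ e → ∀ β : ℝ → X,
      IsQuasiGeodesic q Q s e β → β s ∈ b '' Ici 0 → β e ∈ b '' Ici 0 →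
        ∀ u ∈ Icc s e, β u ∈ kappaNhd κ (b 0) (b '' Ici 0) (m q Q)

/-- The geodesic ray `b` is `κ`-Morse, tested only against continuous quasi-geodesics. -/
def IsKappaMorseCont (κ : ℝ → ℝ) (b : ℝ → X) : Prop :=
  ∃ m : ℝ → ℝ → ℝ, (∀ q Q, 0 ≤ m q Q) ∧
    ∀ q Q : ℝ, 1 ≤ q → 0 ≤ Q → ∀ s e : ℝ, s ≤ e → ∀ β : ℝ → X, ContinuousOn β (Icc s e) →
      IsQuasiGeodesic q Q s e β → β s ∈ b '' Ici 0 → β e ∈ b '' Ici 0 →
        ∀ u ∈ Icc s e, β u ∈ kappaNhd κ (b 0) (b '' Ici 0) (m q Q)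

/-- The infimum of the lengths of paths from `b(t-R)` to `b(t+R)` which avoid the open ball of
radius `R` about `b(t)` (`∞` if there is no such path of finite length). -/
noncomputable def avoidLength (b : ℝ → X) (R t : ℝ) : ℝ≥0∞ :=
  ⨅ (γ : ℝ → X) (_ : ContinuousOn γ (Icc 0 1)) (_ : γ 0 = b (t - R)) (_ : γ 1 = b (t + R))
    (_ : ∀ s ∈ Icc (0 : ℝ) 1, γ s ∉ Metric.ball (b t) R), eVariationOn γ (Icc 0 1)

/-- The `κ`-lower divergence `inf_{t > r κ(t)} ρ_κ(r, t) / κ(t)`. -/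
noncomputable def lowerDiv (κ : ℝ → ℝ) (b : ℝ → X) (r : ℝ) : ℝ≥0∞ :=
  ⨅ (t : ℝ) (_ : 0 ≤ t) (_ : r * κ t < t), avoidLength b (r * κ t) t / ENNReal.ofReal (κ t)

/-- The `κ`-lower divergence is superlinear. -/
def IsSuperlinear (κ : ℝ → ℝ) (b : ℝ → X) : Prop :=
  Tendsto (fun r : ℝ => lowerDiv κ b r / ENNReal.ofReal r) atTop (𝓝 ∞)


end Pool.Agent.SublinMorse
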