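import Pool.Agent.SublinMorse.Defs

/-!
# Sublinearly Morse rays and lower divergence in geodesic metric spaces

We prove that, in an arbitrary geodesic metric space (proper or not), a geodesic ray is
`κ`-Morse if and only if its `κ`-lower divergence is superlinear.

* Morse implies superlinear: if some path of length at most `C R` joins `b(t-R)` to `b(t+R)`
  outside the ball of radius `R = r κ(t)` about `b(t)`, then a near-minimiser of the functional
  `length - 2 C dist(b(t), path)` among all such paths is a `(1 + C, 1)`-quasi-geodesic staying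
  outside the ball of radius about `R / 2`.
* Superlinear implies Morse: given a quasi-geodesic `β` with endpoints on `b`, we look at a
  parameter `τ` which maximises `dist(b(τ), β) - |τ - τ₀| / 2`, and build a short detour there.
-/

open Set Filter Topology
open scoped ENNReal NNReal

namespace Pool.Agent.SublinMorse


section Paths

variable {X : Type*} [MetricSpace X]

/-- there is a 1-Lipschitz path of length `ℓ` in `S` from `x` to `y`. -/
def LPath (S : Set X) (ℓ : ℝ) (x y : X) : Prop :=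
  0 ≤ ℓ ∧ ∃ γ : ℝ → X, γ 0 = x ∧ γ ℓ = y ∧ (∀ u ∈ Icc 0 ℓ, γ u ∈ S) ∧
    ∀ u ∈ Icc 0 ℓ, ∀ v ∈ Icc 0 ℓ, dist (γ u) (γ v) ≤ |u - v|

theorem LPath.refl {S : Set X} {x : X} (hx : x ∈ S) : LPath S 0 x x :=
  ⟨le_rfl, fun _ => x, rfl, rfl, fun _ _ => hx, fun _ _ _ _ => by simp⟩

theorem LPath.mono {S S' : Set X} (h : S ⊆ S') {ℓ : ℝ} {x y : X} (hp : LPath S ℓ x y) :
    LPath S' ℓ x y := by
  obtain ⟨h0, γ, h1, h2, h3, h4⟩ := hp
  exact ⟨h0, γ, h1, h2, fun u hu => h (h3 u hu), h4⟩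

theorem LPath.symm {S : Set X} {ℓ : ℝ} {x y : X} (hp : LPath S ℓ x y) : LPath S ℓ y x := by
  obtain ⟨h0, γ, h1, h2, h3, h4⟩ := hp
  refine ⟨h0, fun u => γ (ℓ - u), by simp [h2], by simp [h1], fun u hu => h3 _ ?_, ?_⟩
  · constructor <;> linarith [hu.1, hu.2]
  · intro u hu v hv
    have := h4 (ℓ - u) ⟨by linarith [hu.2], by linarith [hu.1]⟩ (ℓ - v)
      ⟨by linarith [hv.2], by linarith [hv.1]⟩
    rw [show ℓ - u - (ℓ - v) = -(u - v) by ring, abs_neg] at this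
    exact this

theorem LPath.left_mem {S : Set X} {ℓ : ℝ} {x y : X} (hp : LPath S ℓ x y) : x ∈ S := by
  obtain ⟨h0, γ, h1, h2, h3, h4⟩ := hp
  rw [← h1]; exact h3 0 ⟨le_rfl, h0⟩

theorem LPath.dist_le {S : Set X} {ℓ : ℝ} {x y : X} (hp : LPath S ℓ x y) : dist x y ≤ ℓ := by
  obtain ⟨h0, γ, h1, h2, h3, h4⟩ := hp
  have := h4 0 ⟨le_rfl, h0⟩ ℓ ⟨h0, le_rfl⟩
  rw [h1, h2] at this
  simpa [abs_of_nonneg h0] using this

theorem LPath.trans {S : Set X} {ℓ ℓ' : ℝ} {x y z : X} (hp : LPath S ℓ x y)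
    (hp' : LPath S ℓ' y z) : LPath S (ℓ + ℓ') x z := by
  obtain ⟨h0, γ, h1, h2, h3, h4⟩ := hp
  obtain ⟨h0', γ', h1', h2', h3', h4'⟩ := hp'
  refine ⟨by linarith, fun u => if u ≤ ℓ then γ u else γ' (u - ℓ), ?_, ?_, ?_, ?_⟩
  · simp [h0, h1]
  · by_cases h : ℓ + ℓ' ≤ ℓ
    · have : ℓ' = 0 := by linarith
      subst this
      simp only [add_zero, le_refl, if_true]
      rw [h2, ← h1', h2']
    · simp only [h, if_false]
      rw [show ℓ + ℓ' - ℓ = ℓ' by ring, h2']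
  · intro u hu
    by_cases h : u ≤ ℓ
    · simp only [h, if_true]; exact h3 u ⟨hu.1, h⟩
    · simp only [h, if_false]; push Not at h; exact h3' _ ⟨by linarith, by linarith [hu.2]⟩
  · have key : ∀ u ∈ Icc (0:ℝ) (ℓ + ℓ'), ∀ v ∈ Icc (0:ℝ) (ℓ + ℓ'), u ≤ v →
        dist (if u ≤ ℓ then γ u else γ' (u - ℓ)) (if v ≤ ℓ then γ v else γ' (v - ℓ)) ≤ |u - v| := by
      intro u hu v hv huv
      by_cases h : v ≤ ℓ
      · have h' : u ≤ ℓ := huv.trans h
        simp only [h, h', if_true]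
        exact h4 u ⟨hu.1, h'⟩ v ⟨hv.1, h⟩
      · by_cases h' : u ≤ ℓ
        · simp only [h, h', if_true, if_false]
          push Not at h
          have a1 := h4 u ⟨hu.1, h'⟩ ℓ ⟨h0, le_rfl⟩
          have a2 := h4' 0 ⟨le_rfl, h0'⟩ (v - ℓ) ⟨by linarith, by linarith [hv.2]⟩
          rw [h2] at a1
          rw [h1'] at a2
          rw [abs_of_nonpos (by linarith)] at a1 a2 ⊢
          have := dist_triangle (γ u) y (γ' (v - ℓ))
          linarith
        · simp only [h, h', if_false]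
          push Not at h h'
          have := h4' (u - ℓ) ⟨by linarith, by linarith [hu.2]⟩ (v - ℓ) ⟨by linarith, by linarith [hv.2]⟩
          rw [show u - ℓ - (v - ℓ) = u - v by ring] at this
          exact this
    intro u hu v hv
    rcases le_total u v with h | h
    · exact key u hu v hv h
    · rw [dist_comm, abs_sub_comm]; exact key v hv u hu h

/-- geodesic segment as an `LPath`, staying in any set containing all points close to an end -/
theorem LPath.of_geodesic (hX : IsGeodesicSpace X) (x y : X) {S : Set X}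
    (hS : ∀ z, dist x z ≤ dist x y → dist z y ≤ dist x y → dist x z + dist z y = dist x y → z ∈ S) :
    LPath S (dist x y) x y := by
  obtain ⟨γ, h0, h1, h2⟩ := hX x y
  refine ⟨dist_nonneg, γ, h0, h1, ?_, fun u hu v hv => (h2 u hu v hv).le⟩
  intro u hu
  have e1 := h2 0 ⟨le_rfl, dist_nonneg⟩ u hu
  have e2 := h2 u hu (dist x y) ⟨dist_nonneg, le_rfl⟩
  rw [h0] at e1
  rw [h1] at e2
  rw [zero_sub, abs_neg, abs_of_nonneg hu.1] at e1
  rw [abs_of_nonpos (by linarith [hu.2])] at e2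
  exact hS _ (by linarith [hu.2]) (by linarith [hu.1]) (by linarith)

/-- restriction of a path -/
theorem LPath.sub_left {S : Set X} {ℓ : ℝ} {γ : ℝ → X} (hS : ∀ u ∈ Icc 0 ℓ, γ u ∈ S)
    (hL : ∀ u ∈ Icc 0 ℓ, ∀ v ∈ Icc 0 ℓ, dist (γ u) (γ v) ≤ |u - v|) {u : ℝ} (hu : u ∈ Icc 0 ℓ) :
    LPath S u (γ 0) (γ u) :=
  ⟨hu.1, γ, rfl, rfl, fun v hv => hS v ⟨hv.1, hv.2.trans hu.2⟩,
    fun v hv w hw => hL v ⟨hv.1, hv.2.trans hu.2⟩ w ⟨hw.1, hw.2.trans hu.2⟩⟩

theorem LPath.sub {S : Set X} {a c : ℝ} {γ : ℝ → X} (hac : a ≤ c) (hS : ∀ u ∈ Icc a c, γ u ∈ S)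
    (hL : ∀ u ∈ Icc a c, ∀ v ∈ Icc a c, dist (γ u) (γ v) ≤ |u - v|) :
    LPath S (c - a) (γ a) (γ c) := by
  refine ⟨by linarith, fun u => γ (a + u), by simp, by simp, ?_, ?_⟩
  · intro u hu; exact hS _ ⟨by linarith [hu.1], by linarith [hu.2]⟩
  · intro u hu v hv
    have := hL (a + u) ⟨by linarith [hu.1], by linarith [hu.2]⟩ (a + v)
      ⟨by linarith [hv.1], by linarith [hv.2]⟩
    rwa [show a + u - (a + v) = u - v by ring] at this

/-- chains of geodesics -/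
theorem LPath.chain {S : Set X} (x : ℕ → X) (n : ℕ)
    (h : ∀ i < n, LPath S (dist (x i) (x (i + 1))) (x i) (x (i + 1))) (h0 : x 0 ∈ S) :
    LPath S (∑ i ∈ Finset.range n, dist (x i) (x (i + 1))) (x 0) (x n) := by
  induction n with
  | zero => simpa using LPath.refl h0
  | succ n ih =>
    rw [Finset.sum_range_succ]
    exact (ih fun i hi => h i (by omega)).trans (h n (by omega))

end Paths


section Conversions

variable {X : Type*} [MetricSpace X]

theorem LPath.exists_path {S : Set X} {ℓ : ℝ} {x y : X} (hp : LPath S ℓ x y) :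
    ∃ γ : ℝ → X, ContinuousOn γ (Icc 0 1) ∧ γ 0 = x ∧ γ 1 = y ∧ (∀ s ∈ Icc (0:ℝ) 1, γ s ∈ S) ∧
      eVariationOn γ (Icc 0 1) ≤ ENNReal.ofReal ℓ := by
  obtain ⟨h0, γ, h1, h2, h3, h4⟩ := hp
  have hmem : ∀ s ∈ Icc (0:ℝ) 1, ℓ * s ∈ Icc 0 ℓ := fun s hs =>
    ⟨mul_nonneg h0 hs.1, by nlinarith [hs.2]⟩
  have hL : LipschitzOnWith (Real.toNNReal ℓ) (fun s => γ (ℓ * s)) (Icc (0:ℝ) 1) := by
    apply LipschitzOnWith.of_dist_le_mul
    intro s hs t ht
    have := h4 (ℓ * s) (hmem s hs) (ℓ * t) (hmem t ht)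
    rw [← mul_sub, abs_mul, abs_of_nonneg h0] at this
    rw [Real.coe_toNNReal _ h0, Real.dist_eq]
    exact this
  refine ⟨fun s => γ (ℓ * s), hL.continuousOn, by simp [h1], by simp [h2],
    fun s hs => h3 _ (hmem s hs), ?_⟩
  have h5 : eVariationOn ((fun s => γ (ℓ * s)) ∘ id) (Icc (0:ℝ) 1) ≤
      (Real.toNNReal ℓ) * eVariationOn (id : ℝ → ℝ) (Icc (0:ℝ) 1) :=
    hL.comp_eVariationOn_le (fun s hs => hs)
  have h6 : eVariationOn (id : ℝ → ℝ) (Icc (0:ℝ) 1) ≤ ENNReal.ofReal (1 - 0) := by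
    have := MonotoneOn.eVariationOn_eq (f := (id : ℝ → ℝ)) (s := Icc (0:ℝ) 1) (a := 0) (b := 1)
      (monotone_id.monotoneOn _) ⟨le_rfl, zero_le_one⟩ ⟨zero_le_one, le_rfl⟩
    rw [inter_self] at this
    exact this.le
  calc eVariationOn (fun s => γ (ℓ * s)) (Icc 0 1)
      ≤ (Real.toNNReal ℓ) * eVariationOn (id : ℝ → ℝ) (Icc (0:ℝ) 1) := h5
    _ ≤ (Real.toNNReal ℓ) * ENNReal.ofReal (1 - 0) := by gcongr
    _ = ENNReal.ofReal ℓ := by simp [ENNReal.ofReal]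

theorem exists_LPath_of_path (hX : IsGeodesicSpace X) {γ : ℝ → X}
    (hc : ContinuousOn γ (Icc 0 1)) {p : X} {R ℓ ε : ℝ} (hε : 0 < ε) (hℓ : 0 ≤ ℓ)
    (hav : ∀ s ∈ Icc (0:ℝ) 1, γ s ∉ Metric.ball p R)
    (hlen : eVariationOn γ (Icc 0 1) ≤ ENNReal.ofReal ℓ) :
    ∃ ℓ' ≤ ℓ, LPath {z | R - ε ≤ dist z p} ℓ' (γ 0) (γ 1) := by
  have huc := isCompact_Icc.uniformContinuousOn_of_continuous hc
  rw [Metric.uniformContinuousOn_iff] at huc
  obtain ⟨δ, hδ, huc⟩ := huc ε hε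
  obtain ⟨n, hn⟩ := exists_nat_one_div_lt hδ
  set N : ℕ := n + 1 with hN
  have hNpos : (0:ℝ) < N := by positivity
  set u : ℕ → ℝ := fun i => min ((i:ℝ) / N) 1 with hu
  have humono : Monotone u := by
    intro i j hij
    simp only [hu]
    apply min_le_min_right
    gcongr
  have humem : ∀ i, u i ∈ Icc (0:ℝ) 1 := fun i =>
    ⟨le_min (by positivity) zero_le_one, min_le_right _ _⟩
  have hu0 : u 0 = 0 := by simp [hu]
  have huN : u N = 1 := by simp [hu]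
  have hstep : ∀ i, dist (u i) (u (i+1)) < δ := by
    intro i
    have h1 : u i ≤ u (i+1) := humono (Nat.le_succ i)
    have h2 : u (i+1) ≤ u i + 1 / N := by
      simp only [hu]
      rcases le_total ((i:ℝ) / N) 1 with h | h
      · rw [min_eq_left h]
        refine (min_le_left _ _).trans ?_
        push_cast
        rw [add_div]
      · rw [min_eq_right h]
        refine (min_le_right _ _).trans ?_
        have : (0:ℝ) ≤ 1 / N := by positivity
        linarith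
    rw [Real.dist_eq, abs_of_nonpos (by linarith)]
    have h3 : (1:ℝ) / N < δ := by rw [hN]; push_cast; exact hn
    linarith
  have hd : ∀ i, dist (γ (u i)) (γ (u (i+1))) < ε := fun i =>
    huc _ (humem i) _ (humem (i+1)) (hstep i)
  have hfar : ∀ i, R ≤ dist (γ (u i)) p := fun i => by
    have := hav _ (humem i)
    rw [Metric.mem_ball, not_lt] at this
    exact this
  have hchain := LPath.chain (S := {z | R - ε ≤ dist z p}) (fun i => γ (u i)) N
    (fun i _ => LPath.of_geodesic hX _ _ (fun z hz _ _ => by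
      have h1 := hfar i
      have h2 := hd i
      have h3 := dist_triangle (γ (u i)) z p
      show R - ε ≤ dist z p
      linarith)) (by
        have := hfar 0
        show R - ε ≤ dist (γ (u 0)) p
        linarith)
  simp only [hu0, huN] at hchain
  refine ⟨_, ?_, hchain⟩
  have hsum := eVariationOn.sum_le (f := γ) (s := Icc (0:ℝ) 1) (n := N) humono humem
  have hsum2 := hsum.trans hlen
  have h7 : (∑ i ∈ Finset.range N, edist (γ (u (i+1))) (γ (u i))) =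
      ENNReal.ofReal (∑ i ∈ Finset.range N, dist (γ (u i)) (γ (u (i+1)))) := by
    rw [ENNReal.ofReal_sum_of_nonneg (fun i _ => dist_nonneg)]
    apply Finset.sum_congr rfl
    intro i _
    rw [edist_dist, dist_comm]
  rw [h7] at hsum2
  exact (ENNReal.ofReal_le_ofReal_iff hℓ).1 hsum2

end Conversions


section NearMin

variable {X : Type*} [MetricSpace X]

theorem exists_quasigeodesic (hX : IsGeodesicSpace X) {p x y : X} {R ℓ C : ℝ} (hR : 1 ≤ R)
    (hC : 1 ≤ C) (hx : dist x p = R) (hxy : 2 * R ≤ dist x y)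
    (hp : LPath {z | R - 1 ≤ dist z p} ℓ x y) (hℓ : ℓ ≤ C * R) :
    ∃ L : ℝ, 0 ≤ L ∧ ∃ γ : ℝ → X, γ 0 = x ∧ γ L = y ∧
      (∀ u ∈ Icc 0 L, ∀ v ∈ Icc 0 L, dist (γ u) (γ v) ≤ |u - v|) ∧
      (∀ u ∈ Icc 0 L, R / 2 - 1 ≤ dist (γ u) p) ∧ IsQuasiGeodesic (1 + C) 1 0 L γ := by
  set J : Set ℝ := {j | ∃ ℓ m : ℝ, LPath {z | m ≤ dist z p} ℓ x y ∧ j = ℓ - 2 * C * m} with hJ
  have hne : J.Nonempty := ⟨_, ℓ, R - 1, hp, rfl⟩
  have hbdd : BddBelow J := by
    refine ⟨- (2 * C * R), ?_⟩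
    rintro j ⟨ℓ', m, hP, rfl⟩
    have h1 : m ≤ dist x p := hP.left_mem
    rw [hx] at h1
    have h2 : 0 ≤ ℓ' := hP.1
    have h3 : 2 * C * m ≤ 2 * C * R := by
      apply mul_le_mul_of_nonneg_left h1; linarith
    linarith
  obtain ⟨j, ⟨L, m, hP, rfl⟩, hj⟩ := Real.lt_sInf_add_pos hne (zero_lt_one)
  have hJ0 : sInf J ≤ ℓ - 2 * C * (R - 1) := csInf_le hbdd ⟨ℓ, R - 1, hp, rfl⟩
  have hLxy : 2 * R ≤ L := hxy.trans hP.dist_le
  have hm : R / 2 - 1 ≤ m := by
    have h1 : L - 2 * C * m < ℓ - 2 * C * (R - 1) + 1 := by linarith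
    have h2 : 2 * C * (R / 2 - 1) < 2 * C * m := by nlinarith
    exact (lt_of_mul_lt_mul_left h2 (by linarith)).le
  obtain ⟨hL0, γ, h0, h1, h2, h3⟩ := hP
  refine ⟨L, hL0, γ, h0, h1, h3, fun u hu => hm.trans (h2 u hu), ?_⟩
  have key : ∀ u ∈ Icc 0 L, ∀ v ∈ Icc 0 L, u ≤ v → v - u ≤ (1 + C) * dist (γ u) (γ v) + 1 := by
    intro u hu v hv huv
    set d := dist (γ u) (γ v) with hd
    have hd0 : 0 ≤ d := dist_nonneg
    have P1 : LPath {z | m - d / 2 ≤ dist z p} u (γ 0) (γ u) :=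
      (LPath.sub_left (S := {z | m ≤ dist z p}) h2 h3 hu).mono (fun z hz => by
        have : m ≤ dist z p := hz
        show m - d / 2 ≤ dist z p
        linarith)
    have P3 : LPath {z | m - d / 2 ≤ dist z p} (L - v) (γ v) (γ L) :=
      (LPath.sub (S := {z | m ≤ dist z p}) hv.2 (fun w hw => h2 w ⟨hv.1.trans hw.1, hw.2⟩)
        (fun w hw w' hw' => h3 w ⟨hv.1.trans hw.1, hw.2⟩ w' ⟨hv.1.trans hw'.1, hw'.2⟩)).mono
        (fun z hz => by
          have : m ≤ dist z p := hz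
          show m - d / 2 ≤ dist z p
          linarith)
    have P2 : LPath {z | m - d / 2 ≤ dist z p} d (γ u) (γ v) := by
      apply LPath.of_geodesic hX
      intro z _ _ hz
      show m - d / 2 ≤ dist z p
      have e1 : m ≤ dist (γ u) p := h2 u hu
      have e2 : m ≤ dist (γ v) p := h2 v hv
      have e3 := dist_triangle (γ u) z p
      have e4 := dist_triangle (γ v) z p
      rw [dist_comm (γ v) z] at e4
      rcases le_total (dist (γ u) z) (dist z (γ v)) with h | h <;> linarith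
    have P := (P1.trans P2).trans P3
    rw [h0, h1] at P
    have hinf : sInf J ≤ (u + d + (L - v)) - 2 * C * (m - d / 2) := csInf_le hbdd ⟨_, _, P, rfl⟩
    nlinarith
  have hC' : (0:ℝ) < 1 + C := by linarith
  have key2 : ∀ u ∈ Icc 0 L, ∀ v ∈ Icc 0 L, |u - v| ≤ (1 + C) * dist (γ u) (γ v) + 1 := by
    intro u hu v hv
    rcases le_total u v with h | h
    · rw [abs_of_nonpos (by linarith)]; have := key u hu v hv h; linarith
    · rw [abs_of_nonneg (by linarith), dist_comm]; exact key v hv u hu h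
  intro u hu v hv
  have hd0 : 0 ≤ dist (γ u) (γ v) := dist_nonneg
  constructor
  · have := key2 u hu v hv
    rw [sub_le_iff_le_add, div_le_iff₀ hC']
    nlinarith
  · have e1 := h3 u hu v hv
    have e2 : 0 ≤ |u - v| := abs_nonneg _
    nlinarith

/-- discrete connectedness -/
theorem exists_switch {P Q : ℕ → Prop} {N : ℕ} (h0 : P 0) (hN : Q N)
    (h : ∀ i ≤ N, P i ∨ Q i) : ∃ i ≤ N, ∃ j ≤ N, P i ∧ Q j ∧ (j = i ∨ j = i + 1) := by
  by_contra hcon
  push Not at hcon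
  have hall : ∀ i ≤ N, P i := by
    intro i
    induction i with
    | zero => intro _; exact h0
    | succ i ih =>
      intro hi
      rcases h (i+1) hi with h1 | h1
      · exact h1
      · exact absurd rfl (hcon i (by omega) (i+1) hi (ih (by omega)) h1).2
  exact (hcon N le_rfl N le_rfl (hall N le_rfl) hN).1 rfl

end NearMin


section Gauge

/-- working form of a sublinear gauge -/
structure WGauge (κ : ℝ → ℝ) (c : ℝ) : Prop where
  one_le_c : 1 ≤ c
  one_le : ∀ t, 0 ≤ t → 1 ≤ κ t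
  mono : ∀ s t, 0 ≤ s → s ≤ t → κ s ≤ c * κ t
  scale : ∀ l t, 1 ≤ l → 0 ≤ t → κ (l * t) ≤ c * l * κ t
  sub : ∀ ε, 0 < ε → ∃ T, 0 < T ∧ ∀ t, T ≤ t → κ t ≤ ε * t

theorem IsSublinearGauge.exists_wGauge {κ : ℝ → ℝ} (h : IsSublinearGauge κ) :
    ∃ c, WGauge κ c := by
  obtain ⟨h1, h2, κ₀, C, hC, hm, hc, hk⟩ := h
  have hpos : ∀ t, 0 ≤ t → 0 < κ₀ t := by
    intro t ht
    have := (h1 t ht).trans (hk t ht).2
    by_contra hneg
    push Not at hneg
    nlinarith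
  have hC1 : 1 ≤ C := by
    have a := hk 0 (le_refl (0:ℝ))
    have b := hpos 0 le_rfl
    by_contra hlt
    push Not at hlt
    nlinarith [a.1.trans a.2]
  have hscale : ∀ l t, 1 ≤ l → 0 ≤ t → κ₀ (l * t) ≤ l * κ₀ t := by
    intro l t hl ht
    have hl0 : 0 < l := by linarith
    have hlt : 0 ≤ l * t := by positivity
    have hlt' : l * t ∈ Ici (0:ℝ) := hlt
    have h0' : (0:ℝ) ∈ Ici (0:ℝ) := le_refl (0:ℝ)
    have hl1 : (0:ℝ) ≤ 1 / l := by positivity
    have hl2 : (0:ℝ) ≤ 1 - 1 / l := by rw [sub_nonneg, div_le_one hl0]; exact hl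
    have := hc.2 hlt' h0' hl1 hl2 (by ring)
    simp only [smul_eq_mul, mul_zero, add_zero] at this
    have e : 1 / l * (l * t) = t := by field_simp
    rw [e] at this
    have h0 := hpos 0 le_rfl
    have h3 : 0 ≤ (1 - 1 / l) * κ₀ 0 := by
      apply mul_nonneg _ h0.le
      rw [sub_nonneg, div_le_one hl0]; exact hl
    have h4 : 1 / l * κ₀ (l * t) ≤ κ₀ t := by linarith
    have h5 : l * (1 / l * κ₀ (l * t)) ≤ l * κ₀ t := by gcongr
    have h6 : l * (1 / l * κ₀ (l * t)) = κ₀ (l * t) := by field_simp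
    linarith
  refine ⟨C, hC1, h1, ?_, ?_, ?_⟩
  · intro s t hs hst
    calc κ s ≤ C * κ₀ s := (hk s hs).2
      _ ≤ C * κ₀ t := by
        apply mul_le_mul_of_nonneg_left _ hC.le
        exact hm hs (hs.trans hst) hst
      _ ≤ C * κ t := by
        apply mul_le_mul_of_nonneg_left _ hC.le
        exact (hk t (hs.trans hst)).1
  · intro l t hl ht
    have hlt : 0 ≤ l * t := by positivity
    calc κ (l * t) ≤ C * κ₀ (l * t) := (hk _ hlt).2
      _ ≤ C * (l * κ₀ t) := by gcongr; exact hscale l t hl ht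
      _ ≤ C * (l * κ t) := by gcongr; exact (hk t ht).1
      _ = C * l * κ t := by ring
  · intro ε hε
    have := (h2.eventually (gt_mem_nhds hε)).and (eventually_gt_atTop 0)
    obtain ⟨T, hT⟩ := eventually_atTop.1 this
    refine ⟨max T 1, by positivity, fun t ht => ?_⟩
    have h := hT t ((le_max_left _ _).trans ht)
    have := h.1
    rw [div_lt_iff₀ h.2] at this
    exact this.le

theorem WGauge.add_le {κ : ℝ → ℝ} {c : ℝ} (h : WGauge κ c) {t s : ℝ} (ht : 0 < t) (hs : 0 ≤ s) :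
    κ (t + s) ≤ c * (1 + s / t) * κ t := by
  have := h.scale (1 + s / t) t (by have : 0 ≤ s / t := by positivity
                                    linarith) ht.le
  have e : (1 + s / t) * t = t + s := by field_simp
  rwa [e] at this

end Gauge

section MorseToDiv

variable {X : Type*} [MetricSpace X]

theorem morse_no_detour (hX : IsGeodesicSpace X) {κ : ℝ → ℝ} {c : ℝ} (hκ : WGauge κ c)
    {b : ℝ → X} (hb : IsGeodesicRay b) (hM : IsKappaMorseCont κ b) (C : ℝ) (hC : 1 ≤ C) :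
    ∃ r₀ : ℝ, 1 ≤ r₀ ∧ ∀ r, r₀ ≤ r → ∀ t, 0 ≤ t → r * κ t < t → ∀ ℓ, ℓ ≤ C * (r * κ t) →
      ¬ LPath {z | r * κ t - 1 ≤ dist z (b t)} ℓ (b (t - r * κ t)) (b (t + r * κ t)) := by
  obtain ⟨mf, hmf, hM⟩ := hM
  have hm0' : 0 ≤ mf (1 + C) 1 := hmf _ _
  have hM' := hM (1 + C) 1 (by linarith) zero_le_one
  clear hM
  obtain ⟨m, hm⟩ : ∃ m, m = mf (1 + C) 1 := ⟨_, rfl⟩
  rw [← hm] at hm0' hM'
  have hm0 := hm0'
  clear hm0' hm hmf
  have hc := hκ.one_le_c
  obtain ⟨D, hD⟩ : ∃ D, D = 3 * m + 4 := ⟨_, rfl⟩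
  have hD4 : 4 ≤ D := by linarith
  refine ⟨8 * D * c ^ 2 + 4, by nlinarith [mul_pos (show (0:ℝ) < D by linarith) (show (0:ℝ) < c ^ 2 by positivity)], ?_⟩
  intro r hr t ht hrt ℓ hℓ hP
  obtain ⟨R, hR⟩ : ∃ R, R = r * κ t := ⟨_, rfl⟩
  rw [← hR] at hrt hℓ hP
  have hDc : 0 < D * c ^ 2 := by positivity
  have hr4 : 4 ≤ r := by nlinarith
  have hκt : 1 ≤ κ t := hκ.one_le t ht
  have hR4 : 4 ≤ R := by rw [hR]; nlinarith
  have htpos : 0 < t := by linarith
  have hd1 : dist (b (t - R)) (b t) = R := by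
    rw [hb (t - R) (by show 0 ≤ t - R; linarith) t ht, show t - R - t = -R by ring, abs_neg,
      abs_of_nonneg (by linarith)]
  have hd2 : dist (b (t - R)) (b (t + R)) = 2 * R := by
    rw [hb (t - R) (by show 0 ≤ t - R; linarith) (t + R) (by show 0 ≤ t + R; linarith),
      show t - R - (t + R) = -(2 * R) by ring, abs_neg, abs_of_nonneg (by linarith)]
  obtain ⟨L, hL0, γ, h0, h1, hLip, hfar, hQG⟩ :=
    exists_quasigeodesic hX (by linarith) hC hd1 hd2.ge hP hℓ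
  have hcont : ContinuousOn γ (Icc 0 L) := by
    have : LipschitzOnWith 1 γ (Icc 0 L) := by
      apply LipschitzOnWith.of_dist_le_mul
      intro u hu v hv
      simpa [Real.dist_eq] using hLip u hu v hv
    exact this.continuousOn
  have hin := hM' 0 L hL0 γ hcont hQG ⟨t - R, by show 0 ≤ t - R; linarith, h0.symm⟩
    ⟨t + R, by show 0 ≤ t + R; linarith, h1.symm⟩
  obtain ⟨N, hN⟩ := exists_nat_gt L
  have hNpos : (0:ℝ) < N := lt_of_le_of_lt hL0 hN
  set u : ℕ → ℝ := fun i => i * L / N with hu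
  have humem : ∀ i ≤ N, u i ∈ Icc 0 L := by
    intro i hi
    have hi' : (i:ℝ) ≤ N := by exact_mod_cast hi
    refine ⟨by positivity, ?_⟩
    simp only [hu]
    rw [div_le_iff₀ hNpos]
    nlinarith
  have huN : u N = L := by simp only [hu]; field_simp
  have hu0 : u 0 = 0 := by simp [hu]
  set nrm : X → ℝ := fun x => dist (b 0) x with hnrm
  set P : ℕ → Prop := fun i => ∃ s, 0 ≤ s ∧ s ≤ t ∧ dist (γ (u i)) (b s) ≤ m * κ (nrm (γ (u i))) + 1
  set Q : ℕ → Prop := fun i => ∃ s, t ≤ s ∧ dist (γ (u i)) (b s) ≤ m * κ (nrm (γ (u i))) + 1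
  have hκn : ∀ x : X, 1 ≤ κ (nrm x) := fun x => hκ.one_le _ dist_nonneg
  have hP0 : P 0 := ⟨t - R, by linarith, by linarith, by
    rw [hu0, h0, dist_self]; have := hκn (b (t-R)); positivity⟩
  have hQN : Q N := ⟨t + R, by linarith, by
    rw [huN, h1, dist_self]; have := hκn (b (t+R)); positivity⟩
  have hPQ : ∀ i ≤ N, P i ∨ Q i := by
    intro i hi
    have := hin (u i) (humem i hi)
    have hlt : Metric.infDist (γ (u i)) (b '' Ici 0) < m * κ (nrm (γ (u i))) + 1 :=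
      lt_of_le_of_lt this (lt_add_one _)
    rw [Metric.infDist_lt_iff (s := b '' Ici 0) ⟨b 0, 0, by simp, rfl⟩] at hlt
    obtain ⟨_, ⟨s, hs, rfl⟩, hs2⟩ := hlt
    rcases le_total s t with h | h
    · exact Or.inl ⟨s, hs, h, hs2.le⟩
    · exact Or.inr ⟨s, h, hs2.le⟩
  obtain ⟨i, hi, j, hj, ⟨s', hs'0, hs't, hs'⟩, ⟨s'', hs''t, hs''⟩, hij⟩ := exists_switch hP0 hQN hPQ
  have hstep : dist (γ (u i)) (γ (u j)) ≤ 1 := by
    refine (hLip _ (humem i hi) _ (humem j hj)).trans ?_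
    rcases hij with rfl | rfl
    · simp
    · simp only [hu]
      push_cast
      rw [show (i:ℝ) * L / N - (i + 1) * L / N = -(L / N) by ring, abs_neg, abs_of_nonneg (by positivity),
        div_le_one hNpos]
      exact hN.le
  have hss : s'' - s' ≤ m * κ (nrm (γ (u i))) + m * κ (nrm (γ (u j))) + 3 := by
    have e := hb s' hs'0 s'' (by show 0 ≤ s''; linarith)
    have e2 : s'' - s' = dist (b s') (b s'') := by rw [e, abs_of_nonpos (by linarith)]; ring
    rw [e2]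
    have t1 := dist_triangle (b s') (γ (u i)) (b s'')
    have t2 := dist_triangle (γ (u i)) (γ (u j)) (b s'')
    rw [dist_comm (b s') (γ (u i))] at t1
    linarith
  -- the point with larger gauge
  have hmain : ∃ k, k ≤ N ∧ dist (γ (u k)) (b t) ≤ D * κ (nrm (γ (u k))) := by
    have ei : dist (γ (u i)) (b t) ≤ 2 * m * κ (nrm (γ (u i))) + m * κ (nrm (γ (u j))) + 4 := by
      have t1 := dist_triangle (γ (u i)) (b s') (b t)
      have e := hb s' hs'0 t ht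
      rw [abs_of_nonpos (by linarith)] at e
      linarith
    have ej : dist (γ (u j)) (b t) ≤ 2 * m * κ (nrm (γ (u j))) + m * κ (nrm (γ (u i))) + 4 := by
      have t1 := dist_triangle (γ (u j)) (b s'') (b t)
      have e := hb s'' (by show 0 ≤ s''; linarith) t ht
      rw [abs_of_nonneg (by linarith)] at e
      linarith
    have hki := hκn (γ (u i))
    have hkj := hκn (γ (u j))
    rcases le_total (κ (nrm (γ (u i)))) (κ (nrm (γ (u j)))) with h | h
    · refine ⟨j, hj, ej.trans ?_⟩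
      rw [hD]
      nlinarith [mul_le_mul_of_nonneg_left h hm0]
    · refine ⟨i, hi, ei.trans ?_⟩
      rw [hD]
      nlinarith [mul_le_mul_of_nonneg_left h hm0]
  obtain ⟨k, hk, hkd⟩ := hmain
  have hfk := hfar (u k) (humem k hk)
  set K := κ (nrm (γ (u k))) with hK
  have hK1 : 1 ≤ K := hκn _
  have hnk : nrm (γ (u k)) ≤ t + D * K := by
    have t1 := dist_triangle (b 0) (b t) (γ (u k))
    have e := hb 0 (by simp) t ht
    rw [zero_sub, abs_neg, abs_of_nonneg ht] at e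
    rw [dist_comm (b t)] at t1
    show dist (b 0) (γ (u k)) ≤ t + D * K
    linarith
  have hK2 : K ≤ c * (c * (1 + D * K / t) * κ t) := by
    calc K ≤ c * κ (t + D * K) := hκ.mono _ _ dist_nonneg hnk
      _ ≤ c * (c * (1 + D * K / t) * κ t) := by
        gcongr
        exact hκ.add_le htpos (by positivity)
  have hK3 : K ≤ 2 * c ^ 2 * κ t := by
    have h5 : c * (c * (1 + D * K / t) * κ t) = c ^ 2 * κ t + c ^ 2 * D * K * (κ t / t) := by
      ring
    have h6 : κ t / t ≤ 1 / r := by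
      rw [div_le_div_iff₀ htpos (by linarith)]
      linarith
    have h7 : c ^ 2 * D * K * (κ t / t) ≤ c ^ 2 * D * K * (1 / r) := by gcongr
    have h8 : c ^ 2 * D * K * (1 / r) ≤ K / 2 := by
      rw [mul_one_div, div_le_div_iff₀ (by linarith) (by norm_num)]
      nlinarith
    rw [h5] at hK2
    linarith
  have hfin : R / 4 ≤ D * (2 * c ^ 2 * κ t) := by
    have : D * K ≤ D * (2 * c ^ 2 * κ t) := by gcongr
    linarith
  have : r * κ t ≤ (8 * D * c ^ 2) * κ t := by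
    have : R = r * κ t := hR
    nlinarith
  have := le_of_mul_le_mul_right this (by linarith)
  linarith

theorem isSuperlinear_of_morse (hX : IsGeodesicSpace X) {κ : ℝ → ℝ} {c : ℝ} (hκ : WGauge κ c)
    {b : ℝ → X} (hb : IsGeodesicRay b) (hM : IsKappaMorseCont κ b) : IsSuperlinear κ b := by
  unfold IsSuperlinear
  rw [ENNReal.tendsto_nhds_top_iff_nnreal]
  intro x
  obtain ⟨r₀, hr₀, h⟩ := morse_no_detour hX hκ hb hM ((x : ℝ) + 1) (by simp)
  filter_upwards [eventually_ge_atTop r₀] with r hr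
  have hrpos : 0 < r := by linarith
  have key : ENNReal.ofReal (((x : ℝ) + 1) * r) ≤ lowerDiv κ b r := by
    unfold lowerDiv
    refine le_iInf fun t => le_iInf fun ht => le_iInf fun hrt => ?_
    have hκt : 1 ≤ κ t := hκ.one_le t ht
    have hκ0 : 0 < κ t := by linarith
    rw [ENNReal.le_div_iff_mul_le (Or.inl (by simpa using hκ0)) (Or.inl ENNReal.ofReal_ne_top),
      ← ENNReal.ofReal_mul (by positivity)]
    unfold avoidLength
    refine le_iInf fun γ => le_iInf fun hc => le_iInf fun h0 => le_iInf fun h1 => le_iInf fun hav => ?_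
    by_contra hlt
    push Not at hlt
    obtain ⟨ℓ', hℓ', hP⟩ := exists_LPath_of_path hX hc (ε := 1) one_pos (ℓ := ((x:ℝ) + 1) * r * κ t)
      (by positivity) hav hlt.le
    rw [h0, h1] at hP
    exact h r hr t ht hrt ℓ' (by rw [← mul_assoc]; exact hℓ') hP
  have h2 : ENNReal.ofReal (((x : ℝ) + 1) * r) / ENNReal.ofReal r = ENNReal.ofReal ((x:ℝ) + 1) := by
    rw [← ENNReal.ofReal_div_of_pos hrpos, mul_div_assoc, div_self hrpos.ne', mul_one]
  calc (x : ℝ≥0∞) < ENNReal.ofReal ((x:ℝ) + 1) := by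
        rw [← ENNReal.ofReal_coe_nnreal]
        exact (ENNReal.ofReal_lt_ofReal_iff (by positivity)).2 (by linarith)
    _ = ENNReal.ofReal (((x : ℝ) + 1) * r) / ENNReal.ofReal r := h2.symm
    _ ≤ lowerDiv κ b r / ENNReal.ofReal r := by gcongr

end MorseToDiv


section DivToMorse

variable {X : Type*} [MetricSpace X]

theorem superlinear_long {κ : ℝ → ℝ} {c : ℝ} (hκ : WGauge κ c)
    {b : ℝ → X} (hS : IsSuperlinear κ b) (C : ℝ) (hC : 0 ≤ C) :
    ∃ r₀ : ℝ, 1 ≤ r₀ ∧ ∀ r, r₀ ≤ r → ∀ t, 0 ≤ t → r * κ t < t → ∀ ℓ,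
      LPath (Metric.ball (b t) (r * κ t))ᶜ ℓ (b (t - r * κ t)) (b (t + r * κ t)) →
      C * (r * κ t) < ℓ := by
  unfold IsSuperlinear at hS
  rw [ENNReal.tendsto_nhds_top_iff_nnreal] at hS
  obtain ⟨r₀, hr₀⟩ := eventually_atTop.1 (hS (Real.toNNReal C))
  refine ⟨max r₀ 1, le_max_right _ _, ?_⟩
  intro r hr t ht hrt ℓ hP
  have h := hr₀ r ((le_max_left _ _).trans hr)
  have hr1 : 1 ≤ r := (le_max_right _ _).trans hr
  have hrpos : 0 < r := by linarith
  have hκt : 0 < κ t := by have := hκ.one_le t ht; linarith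
  have hℓ0 : 0 ≤ ℓ := hP.1
  obtain ⟨γ, hc, h0, h1, hav, hlen⟩ := hP.exists_path
  have e1 : avoidLength b (r * κ t) t ≤ ENNReal.ofReal ℓ := by
    unfold avoidLength
    refine (iInf_le _ γ).trans ?_
    refine (iInf_le _ hc).trans ?_
    refine (iInf_le _ h0).trans ?_
    refine (iInf_le _ h1).trans ?_
    exact (iInf_le _ (fun s hs => hav s hs)).trans hlen
  have e2 : lowerDiv κ b r ≤ ENNReal.ofReal ℓ / ENNReal.ofReal (κ t) := by
    unfold lowerDiv
    refine (iInf_le _ t).trans ?_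
    refine (iInf_le _ ht).trans ?_
    exact (iInf_le _ hrt).trans (by gcongr)
  have e3 : (Real.toNNReal C : ℝ≥0∞) < ENNReal.ofReal (ℓ / κ t / r) := by
    rw [ENNReal.ofReal_div_of_pos hrpos, ENNReal.ofReal_div_of_pos hκt]
    exact h.trans_le (by gcongr)
  rw [← ENNReal.ofReal, ENNReal.ofReal_lt_ofReal_iff_of_nonneg hC] at e3
  rw [lt_div_iff₀ hrpos, lt_div_iff₀ hκt] at e3
  linarith

/-- walking along a quasi-geodesic -/
theorem LPath.along (hX : IsGeodesicSpace X) {q Q s e : ℝ} (hq : 1 ≤ q) (hQ : 0 ≤ Q) {β : ℝ → X}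
    (hβ : IsQuasiGeodesic q Q s e β) {p : X} {δ : ℝ} (hδ : ∀ u ∈ Icc s e, δ ≤ dist p (β u))
    {u v : ℝ} (hu : u ∈ Icc s e) (hv : v ∈ Icc s e) :
    ∃ ℓ ≤ (|u - v| + 1) * (q + Q), LPath (Metric.ball p (δ - (q + Q)))ᶜ ℓ (β u) (β v) := by
  obtain ⟨n, hn1, hn2⟩ : ∃ n : ℕ, |u - v| < n + 1 ∧ (n : ℝ) ≤ |u - v| := by
    refine ⟨⌊|u - v|⌋₊, ?_, ?_⟩
    · exact Nat.lt_floor_add_one _
    · exact Nat.floor_le (abs_nonneg _)
  set N : ℕ := n + 1 with hN
  have hNpos : (0:ℝ) < N := by positivity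
  have hN1 : |u - v| < N := by rw [hN]; push_cast; exact hn1
  have hN2 : (N:ℝ) ≤ |u - v| + 1 := by rw [hN]; push_cast; linarith
  set w : ℕ → ℝ := fun i => if i ≤ N then u + i * (v - u) / N else v with hw
  have hwe : ∀ i ≤ N, w i = u + i * (v - u) / N := fun i hi => by simp [hw, hi]
  have hconv : ∀ i ≤ N, w i ∈ Icc s e := by
    intro i hi
    rw [hwe i hi]
    have hi' : (i:ℝ) ≤ N := by exact_mod_cast hi
    have a0 : 0 ≤ (i:ℝ) / N := by positivity
    have a1 : (i:ℝ) / N ≤ 1 := by rw [div_le_one hNpos]; exact hi'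
    have e1 : u + i * (v - u) / N = (1 - (i:ℝ) / N) * u + ((i:ℝ) / N) * v := by ring
    rw [e1]
    constructor
    · nlinarith [hu.1, hv.1]
    · nlinarith [hu.2, hv.2]
  have hw0 : w 0 = u := by rw [hwe 0 (Nat.zero_le _)]; simp
  have hwN : w N = v := by rw [hwe N le_rfl]; field_simp; ring
  have hstep : ∀ i < N, |w i - w (i+1)| ≤ 1 := by
    intro i hi
    rw [hwe i hi.le, hwe (i+1) hi]
    push_cast
    rw [show u + (i:ℝ) * (v - u) / N - (u + (i + 1) * (v - u) / N) = (u - v) / N by ring,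
      abs_div, abs_of_pos hNpos, div_le_one hNpos]
    exact hN1.le
  have hdist : ∀ i < N, dist (β (w i)) (β (w (i+1))) ≤ q + Q := by
    intro i hi
    have := (hβ _ (hconv i hi.le) _ (hconv (i+1) hi)).2
    have h1 := hstep i hi
    nlinarith [abs_nonneg (w i - w (i+1))]
  have hchain := LPath.chain (S := (Metric.ball p (δ - (q + Q)))ᶜ) (fun i => β (w i)) N
    (fun i hi => LPath.of_geodesic hX _ _ (fun z hz _ _ => by
      have h1 := hδ _ (hconv i hi.le)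
      have h2 := hdist i hi
      have h3 := dist_triangle p z (β (w i))
      rw [dist_comm z] at h3
      simp only [mem_compl_iff, Metric.mem_ball, not_lt]
      rw [dist_comm z]
      linarith)) (by
        have h1 := hδ _ (hconv 0 (Nat.zero_le _))
        simp only [mem_compl_iff, Metric.mem_ball, not_lt]
        rw [dist_comm]
        linarith)
  simp only [hw0, hwN] at hchain
  refine ⟨_, ?_, hchain⟩
  calc ∑ i ∈ Finset.range N, dist (β (w i)) (β (w (i+1)))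
      ≤ ∑ i ∈ Finset.range N, (q + Q) :=
        Finset.sum_le_sum fun i hi => hdist i (Finset.mem_range.1 hi)
    _ = N * (q + Q) := by rw [Finset.sum_const, Finset.card_range, nsmul_eq_mul]
    _ ≤ (|u - v| + 1) * (q + Q) := by gcongr

/-- the ray stays close to the quasi-geodesic -/
theorem ray_close (hX : IsGeodesicSpace X) {κ : ℝ → ℝ} {c : ℝ} (hκ : WGauge κ c)
    {b : ℝ → X} (hb : IsGeodesicRay b) (hS : IsSuperlinear κ b) {q Q : ℝ} (hq : 1 ≤ q)
    (hQ : 0 ≤ Q) :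
    ∃ D : ℝ, 0 ≤ D ∧ ∀ s e : ℝ, s ≤ e → ∀ β : ℝ → X, IsQuasiGeodesic q Q s e β →
      ∀ p₁ p₂ : ℝ, 0 ≤ p₁ → p₁ ≤ p₂ → β s = b p₁ → β e = b p₂ → ∀ τ ∈ Icc p₁ p₂,
        Metric.infDist (b τ) (β '' Icc s e) ≤ D * κ τ := by
  have hc := hκ.one_le_c
  obtain ⟨C, hC⟩ : ∃ C : ℝ, C = 16 + (q * (17 + Q) + 1) * (q + Q) := ⟨_, rfl⟩
  have hC0 : 0 ≤ C := by rw [hC]; positivity
  obtain ⟨r₀, hr₀, hlong⟩ := superlinear_long hκ hS (2 * C) (by positivity)
  obtain ⟨T, hT0, hT⟩ := hκ.sub (1 / (8 * r₀ * c ^ 2)) (by positivity)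
  obtain ⟨D, hD⟩ : ∃ D : ℝ, D = 2 + 2 * (q + Q) + 4 * r₀ * c ^ 2 + T := ⟨_, rfl⟩
  have hD0 : 0 ≤ D := by rw [hD]; positivity
  refine ⟨D, hD0, ?_⟩
  intro s e hse β hβ p₁ p₂ hp₁ hp₁₂ hβs hβe τ₀ hτ₀
  by_contra hcon
  push Not at hcon
  set δ : ℝ → ℝ := fun τ => Metric.infDist (b τ) (β '' Icc s e) with hδ
  have hne : (β '' Icc s e).Nonempty := ⟨β s, s, ⟨le_rfl, hse⟩, rfl⟩
  have hbcont : ContinuousOn b (Icc p₁ p₂) := by
    have : LipschitzOnWith 1 b (Icc p₁ p₂) := by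
      apply LipschitzOnWith.of_dist_le_mul
      intro u hu v hv
      have := hb u (by show 0 ≤ u; linarith [hu.1]) v (by show 0 ≤ v; linarith [hv.1])
      simp [Real.dist_eq, this]
    exact this.continuousOn
  have hFcont : ContinuousOn (fun τ => δ τ - |τ - τ₀| / 2) (Icc p₁ p₂) := by
    apply ContinuousOn.sub
    · exact (Metric.continuous_infDist_pt _).comp_continuousOn hbcont
    · exact (((continuous_id.sub continuous_const).abs).div_const 2).continuousOn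
  obtain ⟨τ₁, hτ₁, hmax⟩ := isCompact_Icc.exists_isMaxOn ⟨p₁, le_rfl, hp₁₂⟩ hFcont
  have hF : ∀ τ ∈ Icc p₁ p₂, δ τ - |τ - τ₀| / 2 ≤ δ τ₁ - |τ₁ - τ₀| / 2 := fun τ hτ => hmax hτ
  have hF0 := hF τ₀ hτ₀
  rw [sub_self, abs_zero, zero_div, sub_zero] at hF0
  obtain ⟨d, hd⟩ : ∃ d, d = δ τ₁ := ⟨_, rfl⟩
  rw [← hd] at hF hF0
  have hcon' : D * κ τ₀ < δ τ₀ := hcon
  have hτ₀0 : 0 ≤ τ₀ := hp₁.trans hτ₀.1
  have hτ₁0 : 0 ≤ τ₁ := hp₁.trans hτ₁.1
  have hκ0 := hκ.one_le τ₀ hτ₀0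
  have hκ1 := hκ.one_le τ₁ hτ₁0
  have hdδ : δ τ₀ ≤ d := by linarith [abs_nonneg (τ₁ - τ₀)]
  have hdD : D < d := by nlinarith
  have hd2 : 2 + 2 * (q + Q) ≤ d := by
    have : 0 ≤ 4 * r₀ * c ^ 2 := by positivity
    linarith
  have hdT : T ≤ d := by
    have : 0 ≤ 4 * r₀ * c ^ 2 := by positivity
    linarith
  have hδs : ∀ u ∈ Icc s e, d ≤ dist (b τ₁) (β u) := fun u hu => by
    rw [hd]; exact Metric.infDist_le_dist_of_mem ⟨u, hu, rfl⟩
  have hd_left : d ≤ τ₁ - p₁ := by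
    have := hδs s ⟨le_rfl, hse⟩
    rw [hβs, hb τ₁ hτ₁0 p₁ hp₁, abs_of_nonneg (by linarith [hτ₁.1])] at this
    exact this
  have hd_right : d ≤ p₂ - τ₁ := by
    have := hδs e ⟨hse, le_rfl⟩
    rw [hβe, hb τ₁ hτ₁0 p₂ (by show 0 ≤ p₂; linarith), abs_of_nonpos (by linarith [hτ₁.2])] at this
    linarith
  obtain ⟨R, hR⟩ : ∃ R, R = d / 2 := ⟨_, rfl⟩
  have hRpos : 0 < R := by rw [hR]; linarith
  -- segments of the ray avoid the ball
  have hseg : ∀ x y : ℝ, 0 ≤ x → x ≤ y → (y ≤ τ₁ - R ∨ τ₁ + R ≤ x) →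
      LPath (Metric.ball (b τ₁) R)ᶜ (y - x) (b x) (b y) := by
    intro x y hx hxy hor
    apply LPath.sub hxy
    · intro u hu
      simp only [mem_compl_iff, Metric.mem_ball, not_lt]
      rw [hb u (by show 0 ≤ u; linarith [hu.1]) τ₁ hτ₁0]
      rcases hor with h | h
      · rw [abs_of_nonpos (by linarith [hu.2])]; linarith [hu.2]
      · rw [abs_of_nonneg (by linarith [hu.1])]; linarith [hu.1]
    · intro u hu v hv
      rw [hb u (by show 0 ≤ u; linarith [hu.1]) v (by show 0 ≤ v; linarith [hv.1])]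
  -- jumps to the quasi-geodesic
  have hjump : ∀ τ ∈ Icc p₁ p₂, |τ - τ₁| = 4 * d → ∃ u ∈ Icc s e, ∃ ℓ ≤ 3 * d + 1,
      LPath (Metric.ball (b τ₁) R)ᶜ ℓ (b τ) (β u) := by
    intro τ hτ hτd
    have h1 : δ τ ≤ 3 * d := by
      have h2 := hF τ hτ
      have h3 : |τ - τ₀| ≤ |τ - τ₁| + |τ₁ - τ₀| := abs_sub_le _ _ _
      linarith
    have h2 : Metric.infDist (b τ) (β '' Icc s e) < 3 * d + 1 := lt_of_le_of_lt h1 (lt_add_one _)
    rw [Metric.infDist_lt_iff hne] at h2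
    obtain ⟨_, ⟨u, hu, rfl⟩, hlt⟩ := h2
    refine ⟨u, hu, dist (b τ) (β u), hlt.le, LPath.of_geodesic hX _ _ ?_⟩
    intro z hz _ _
    simp only [mem_compl_iff, Metric.mem_ball, not_lt]
    have h4 := dist_triangle (b τ) z (b τ₁)
    rw [hb τ (by show 0 ≤ τ; linarith [hτ.1]) τ₁ hτ₁0, hτd] at h4
    linarith
  have hleft : ∃ u ∈ Icc s e, ∃ ℓ ≤ 8 * d, LPath (Metric.ball (b τ₁) R)ᶜ ℓ (b (τ₁ - R)) (β u) := by
    by_cases hcase : τ₁ - 4 * d ≤ p₁
    · have h1 := hseg p₁ (τ₁ - R) hp₁ (by linarith) (Or.inl le_rfl)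
      rw [← hβs] at h1
      exact ⟨s, ⟨le_rfl, hse⟩, _, by linarith, h1.symm⟩
    · push Not at hcase
      have h1 := hseg (τ₁ - 4 * d) (τ₁ - R) (by linarith) (by linarith) (Or.inl le_rfl)
      obtain ⟨u, hu, ℓ, hℓ, h2⟩ := hjump (τ₁ - 4 * d) ⟨hcase.le, by linarith [hτ₁.2]⟩ (by
        rw [show τ₁ - 4 * d - τ₁ = -(4 * d) by ring, abs_neg, abs_of_nonneg (by linarith)])
      exact ⟨u, hu, _, by linarith, h1.symm.trans h2⟩
  have hright : ∃ u ∈ Icc s e, ∃ ℓ ≤ 8 * d, LPath (Metric.ball (b τ₁) R)ᶜ ℓ (b (τ₁ + R)) (β u) := by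
    by_cases hcase : p₂ ≤ τ₁ + 4 * d
    · have h1 := hseg (τ₁ + R) p₂ (by linarith) (by linarith) (Or.inr le_rfl)
      rw [← hβe] at h1
      exact ⟨e, ⟨hse, le_rfl⟩, _, by linarith, h1⟩
    · push Not at hcase
      have h1 := hseg (τ₁ + R) (τ₁ + 4 * d) (by linarith) (by linarith) (Or.inr le_rfl)
      obtain ⟨u, hu, ℓ, hℓ, h2⟩ := hjump (τ₁ + 4 * d) ⟨by linarith [hτ₁.1], hcase.le⟩ (by
        rw [show τ₁ + 4 * d - τ₁ = 4 * d by ring, abs_of_nonneg (by linarith)])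
      exact ⟨u, hu, _, by linarith, h1.trans h2⟩
  obtain ⟨u, hu, ℓ₁, hℓ₁, hP₁⟩ := hleft
  obtain ⟨v, hv, ℓ₂, hℓ₂, hP₂⟩ := hright
  obtain ⟨ℓ₃, hℓ₃, hP₃⟩ := LPath.along hX hq hQ hβ hδs hu hv
  have hP₃' : LPath (Metric.ball (b τ₁) R)ᶜ ℓ₃ (β u) (β v) := by
    apply hP₃.mono
    apply compl_subset_compl.2
    apply Metric.ball_subset_ball
    linarith
  have hP := (hP₁.trans hP₃').trans hP₂.symm
  have hbd : dist (b (τ₁ - R)) (b (τ₁ + R)) = d := by
    rw [hb (τ₁ - R) (by show 0 ≤ τ₁ - R; linarith) (τ₁ + R) (by show 0 ≤ τ₁ + R; linarith),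
      show τ₁ - R - (τ₁ + R) = -(2 * R) by ring, abs_neg, abs_of_nonneg (by linarith)]
    linarith
  have huv : |u - v| ≤ q * (17 * d + Q) := by
    have h1 := (hβ u hu v hv).1
    have h2 := dist_triangle (β u) (b (τ₁ - R)) (β v)
    have h3 := dist_triangle (b (τ₁ - R)) (b (τ₁ + R)) (β v)
    have h4 := hP₁.dist_le
    have h5 := hP₂.dist_le
    rw [dist_comm] at h4
    have h6 : |u - v| / q ≤ 17 * d + Q := by linarith
    rw [div_le_iff₀ (by linarith)] at h6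
    linarith
  have hlen : ℓ₁ + ℓ₃ + ℓ₂ ≤ C * d := by
    have hd1 : 1 ≤ d := by linarith
    have h1 : (|u - v| + 1) * (q + Q) ≤ (q * (17 * d + Q) + 1) * (q + Q) := by gcongr
    have h2 : (q * (17 * d + Q) + 1) ≤ (q * (17 + Q) + 1) * d := by
      have : q * Q ≤ q * Q * d := by nlinarith [mul_nonneg (by linarith : (0:ℝ) ≤ q) hQ]
      nlinarith
    have h3 : (q * (17 * d + Q) + 1) * (q + Q) ≤ (q * (17 + Q) + 1) * d * (q + Q) := by gcongr
    rw [hC]
    linarith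
  -- so `R < r₀ κ(τ₁)`
  have hRr : R < r₀ * κ τ₁ := by
    by_contra hge
    push Not at hge
    have hκ1' : 0 < κ τ₁ := by linarith
    have h1 : r₀ ≤ R / κ τ₁ := by rw [le_div_iff₀ hκ1']; exact hge
    have h2 : R / κ τ₁ * κ τ₁ = R := by field_simp
    have h3 := hlong (R / κ τ₁) h1 τ₁ hτ₁0 (by rw [h2]; linarith) (ℓ₁ + ℓ₃ + ℓ₂) (by rw [h2]; exact hP)
    rw [h2] at h3
    have : 2 * C * R = C * d := by rw [hR]; ring
    linarith
  have hτd : |τ₁ - τ₀| ≤ 2 * d := by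
    have : 0 ≤ δ τ₀ := Metric.infDist_nonneg
    linarith
  have hτ₁le : τ₁ ≤ τ₀ + 2 * d := by linarith [le_abs_self (τ₁ - τ₀)]
  rcases le_total (2 * d) τ₀ with hcase | hcase
  · have h1 : κ τ₁ ≤ c * κ (2 * τ₀) := hκ.mono _ _ hτ₁0 (by linarith)
    have h2 : κ (2 * τ₀) ≤ c * 2 * κ τ₀ := hκ.scale 2 τ₀ (by norm_num) hτ₀0
    have h3 : κ τ₁ ≤ c * (c * 2 * κ τ₀) := h1.trans (by gcongr)
    have h4 : R < r₀ * (c * (c * 2 * κ τ₀)) := lt_of_lt_of_le hRr (by gcongr)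
    have h5 : d < (4 * r₀ * c ^ 2) * κ τ₀ := by
      have : r₀ * (c * (c * 2 * κ τ₀)) = (4 * r₀ * c ^ 2) * κ τ₀ / 2 := by ring
      rw [this, hR] at h4
      linarith
    have h6 : (4 * r₀ * c ^ 2) * κ τ₀ ≤ D * κ τ₀ := by
      apply mul_le_mul_of_nonneg_right _ (by linarith)
      rw [hD]
      linarith
    linarith
  · have h1 : κ τ₁ ≤ c * κ (4 * d) := hκ.mono _ _ hτ₁0 (by linarith)
    have h2 : κ (4 * d) ≤ c * 4 * κ d := hκ.scale 4 d (by norm_num) (by linarith)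
    have h3 : κ τ₁ ≤ c * (c * 4 * κ d) := h1.trans (by gcongr)
    have h4 : R < r₀ * (c * (c * 4 * κ d)) := lt_of_lt_of_le hRr (by gcongr)
    have h5 := hT d hdT
    have h6 : r₀ * (c * (c * 4 * κ d)) ≤ r₀ * (c * (c * 4 * (1 / (8 * r₀ * c ^ 2) * d))) := by
      gcongr
    have h7 : r₀ * (c * (c * 4 * (1 / (8 * r₀ * c ^ 2) * d))) = d / 2 := by
      field_simp
      ring
    rw [h7] at h6
    rw [hR] at h4
    linarith

end DivToMorse


section Final

variable {X : Type*} [MetricSpace X]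

theorem qg_close {κ : ℝ → ℝ} {c : ℝ} (hκ : WGauge κ c)
    {b : ℝ → X} (hb : IsGeodesicRay b) {q Q : ℝ} (hq : 1 ≤ q)
    (hQ : 0 ≤ Q) {D : ℝ} (hD : 0 ≤ D)
    (hray : ∀ s e : ℝ, s ≤ e → ∀ β : ℝ → X, IsQuasiGeodesic q Q s e β →
      ∀ p₁ p₂ : ℝ, 0 ≤ p₁ → p₁ ≤ p₂ → β s = b p₁ → β e = b p₂ → ∀ τ ∈ Icc p₁ p₂,
        Metric.infDist (b τ) (β '' Icc s e) ≤ D * κ τ) :
    ∃ M : ℝ, 0 ≤ M ∧ ∀ s e : ℝ, s ≤ e → ∀ β : ℝ → X, IsQuasiGeodesic q Q s e β →
      ∀ p₁ p₂ : ℝ, 0 ≤ p₁ → p₁ ≤ p₂ → β s = b p₁ → β e = b p₂ → ∀ u ∈ Icc s e,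
        Metric.infDist (β u) (b '' Ici 0) ≤ M * κ (dist (b 0) (β u)) := by
  have hc := hκ.one_le_c
  obtain ⟨K, hK⟩ : ∃ K : ℝ, K = q * (q * (2 * D + 3 + Q)) + Q + D + 1 := ⟨_, rfl⟩
  have hK1 : 1 ≤ K := by rw [hK]; have : 0 ≤ q * (q * (2 * D + 3 + Q)) := by positivity
                         linarith
  obtain ⟨T, hT0, hT⟩ := hκ.sub (1 / (2 * K)) (by positivity)
  have hκT := hκ.one_le T hT0.le
  refine ⟨K * (2 * c ^ 2 + c * κ T), by positivity, ?_⟩
  intro s e hse β hβ p₁ p₂ hp₁ hp₁₂ hβs hβe u hu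
  obtain ⟨N, hN⟩ := exists_nat_gt (p₂ - p₁)
  have hNpos : (0:ℝ) < N := lt_of_le_of_lt (by linarith) hN
  set τ : ℕ → ℝ := fun i => p₁ + i * (p₂ - p₁) / N with hτ
  have hτmem : ∀ i ≤ N, τ i ∈ Icc p₁ p₂ := by
    intro i hi
    have hi' : (i:ℝ) ≤ N := by exact_mod_cast hi
    simp only [hτ]
    have h0 : 0 ≤ (i:ℝ) * (p₂ - p₁) / N := by
      have : 0 ≤ p₂ - p₁ := by linarith
      positivity
    refine ⟨by linarith, ?_⟩
    have : (i:ℝ) * (p₂ - p₁) / N ≤ p₂ - p₁ := by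
      rw [div_le_iff₀ hNpos]
      nlinarith
    linarith
  have hτ0 : τ 0 = p₁ := by simp [hτ]
  have hτN : τ N = p₂ := by simp only [hτ]; field_simp; ring
  have hκτ : ∀ i ≤ N, 1 ≤ κ (τ i) := fun i hi => hκ.one_le _ (hp₁.trans (hτmem i hi).1)
  set P : ℕ → Prop := fun i => ∃ v ∈ Icc s e, v ≤ u ∧ dist (b (τ i)) (β v) ≤ D * κ (τ i) + 1 with hP
  set Q' : ℕ → Prop := fun i => ∃ v ∈ Icc s e, u ≤ v ∧ dist (b (τ i)) (β v) ≤ D * κ (τ i) + 1 with hQ'
  have hP0 : P 0 := ⟨s, ⟨le_rfl, hse⟩, hu.1, by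
    rw [hτ0, hβs, dist_self]
    have := hκ.one_le p₁ hp₁
    positivity⟩
  have hQN : Q' N := ⟨e, ⟨hse, le_rfl⟩, hu.2, by
    rw [hτN, hβe, dist_self]
    have := hκ.one_le p₂ (hp₁.trans hp₁₂)
    positivity⟩
  have hPQ : ∀ i ≤ N, P i ∨ Q' i := by
    intro i hi
    have h1 := hray s e hse β hβ p₁ p₂ hp₁ hp₁₂ hβs hβe (τ i) (hτmem i hi)
    have h2 : Metric.infDist (b (τ i)) (β '' Icc s e) < D * κ (τ i) + 1 := lt_of_le_of_lt h1 (lt_add_one _)
    rw [Metric.infDist_lt_iff (s := β '' Icc s e) ⟨β s, s, ⟨le_rfl, hse⟩, rfl⟩] at h2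
    obtain ⟨_, ⟨v, hv, rfl⟩, hlt⟩ := h2
    rcases le_total v u with h | h
    · exact Or.inl ⟨v, hv, h, hlt.le⟩
    · exact Or.inr ⟨v, hv, h, hlt.le⟩
  obtain ⟨i, hi, j, hj, ⟨v, hv, hvu, hvd⟩, ⟨w, hw, huw, hwd⟩, hij⟩ := exists_switch hP0 hQN hPQ
  have hbij : dist (b (τ i)) (b (τ j)) ≤ 1 := by
    rw [hb (τ i) (hp₁.trans (hτmem i hi).1) (τ j) (hp₁.trans (hτmem j hj).1)]
    rcases hij with rfl | rfl
    · simp
    · simp only [hτ]
      push_cast
      rw [show p₁ + (i:ℝ) * (p₂ - p₁) / N - (p₁ + (i + 1) * (p₂ - p₁) / N) = -((p₂ - p₁) / N) by ring,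
        abs_neg, abs_of_nonneg (div_nonneg (by linarith) hNpos.le), div_le_one hNpos]
      exact hN.le
  -- main estimate with k̂ = max
  have hest : ∀ k : ℝ, κ (τ i) ≤ k → κ (τ j) ≤ k → dist (β u) (b (τ i)) ≤ K * k ∧
      dist (β u) (b (τ j)) ≤ K * k := by
    intro k hki hkj
    have hk1 : 1 ≤ k := (hκτ i hi).trans hki
    have hDi : D * κ (τ i) ≤ D * k := by gcongr
    have hDj : D * κ (τ j) ≤ D * k := by gcongr
    have hvw : dist (β v) (β w) ≤ (2 * D + 3) * k := by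
      have h1 := dist_triangle (β v) (b (τ i)) (β w)
      have h2 := dist_triangle (b (τ i)) (b (τ j)) (β w)
      rw [dist_comm] at hvd
      nlinarith
    have hvw2 : |v - w| ≤ q * (2 * D + 3 + Q) * k := by
      have h1 := (hβ v hv w hw).1
      have h2 : |v - w| / q ≤ (2 * D + 3) * k + Q := by linarith
      rw [div_le_iff₀ (by linarith)] at h2
      nlinarith [mul_nonneg (by linarith : (0:ℝ) ≤ q) hQ]
    rw [abs_of_nonpos (by linarith)] at hvw2
    constructor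
    · have h1 := (hβ u hu v hv).2
      rw [abs_of_nonneg (by linarith)] at h1
      have h2 : q * (u - v) ≤ q * (q * (2 * D + 3 + Q) * k) := by
        apply mul_le_mul_of_nonneg_left _ (by linarith)
        linarith
      have h3 := dist_triangle (β u) (β v) (b (τ i))
      rw [dist_comm (β v)] at h3
      rw [hK]
      nlinarith
    · have h1 := (hβ u hu w hw).2
      rw [abs_of_nonpos (by linarith)] at h1
      have h2 : q * (-(u - w)) ≤ q * (q * (2 * D + 3 + Q) * k) := by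
        apply mul_le_mul_of_nonneg_left _ (by linarith)
        linarith
      have h3 := dist_triangle (β u) (β w) (b (τ j))
      rw [dist_comm (β w)] at h3
      rw [hK]
      nlinarith
  have hstar : ∃ t, 0 ≤ t ∧ dist (β u) (b t) ≤ K * κ t := by
    rcases le_total (κ (τ i)) (κ (τ j)) with h | h
    · exact ⟨τ j, hp₁.trans (hτmem j hj).1, (hest _ h le_rfl).2⟩
    · exact ⟨τ i, hp₁.trans (hτmem i hi).1, (hest _ le_rfl h).1⟩
  obtain ⟨t, ht, htd⟩ := hstar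
  have hinf : Metric.infDist (β u) (b '' Ici 0) ≤ K * κ t :=
    (Metric.infDist_le_dist_of_mem (s := b '' Ici 0) ⟨t, ht, rfl⟩).trans htd
  refine hinf.trans ?_
  have hnu0 : 0 ≤ dist (b 0) (β u) := dist_nonneg
  have hκu := hκ.one_le _ hnu0
  have hgoal : κ t ≤ (2 * c ^ 2 + c * κ T) * κ (dist (b 0) (β u)) := by
    rcases le_total T t with h | h
    · have h1 : t ≤ dist (b 0) (β u) + K * κ t := by
        have h2 := dist_triangle (b 0) (β u) (b t)
        have h3 := hb 0 (by simp) t ht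
        rw [zero_sub, abs_neg, abs_of_nonneg ht] at h3
        linarith
      have h4 : K * κ t ≤ K * (1 / (2 * K) * t) := by
        apply mul_le_mul_of_nonneg_left (hT t h) (by linarith)
      have h5 : K * (1 / (2 * K) * t) = t / 2 := by field_simp
      have h6 : t ≤ 2 * dist (b 0) (β u) := by linarith
      calc κ t ≤ c * κ (2 * dist (b 0) (β u)) := hκ.mono _ _ ht h6
        _ ≤ c * (c * 2 * κ (dist (b 0) (β u))) := by
          gcongr
          exact hκ.scale 2 _ (by norm_num) hnu0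
        _ = 2 * c ^ 2 * κ (dist (b 0) (β u)) := by ring
        _ ≤ (2 * c ^ 2 + c * κ T) * κ (dist (b 0) (β u)) := by
          gcongr
          have : 0 ≤ c * κ T := by positivity
          linarith
    · calc κ t ≤ c * κ T := hκ.mono _ _ ht h
        _ ≤ (c * κ T) * κ (dist (b 0) (β u)) := by
          have : 0 ≤ c * κ T := by positivity
          nlinarith
        _ ≤ (2 * c ^ 2 + c * κ T) * κ (dist (b 0) (β u)) := by
          gcongr
          have : 0 ≤ 2 * c ^ 2 := by positivity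
          linarith
  calc K * κ t ≤ K * ((2 * c ^ 2 + c * κ T) * κ (dist (b 0) (β u))) := by gcongr
    _ = K * (2 * c ^ 2 + c * κ T) * κ (dist (b 0) (β u)) := by ring

theorem isKappaMorse_of_superlinear (hX : IsGeodesicSpace X) {κ : ℝ → ℝ} {c : ℝ}
    (hκ : WGauge κ c) {b : ℝ → X} (hb : IsGeodesicRay b) (hS : IsSuperlinear κ b) :
    IsKappaMorse κ b := by
  have h : ∀ q Q : ℝ, ∃ M : ℝ, 0 ≤ M ∧ (1 ≤ q → 0 ≤ Q → ∀ s e : ℝ, s ≤ e → ∀ β : ℝ → X,
      IsQuasiGeodesic q Q s e β → ∀ p₁ p₂ : ℝ, 0 ≤ p₁ → p₁ ≤ p₂ → β s = b p₁ → β e = b p₂ →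
        ∀ u ∈ Icc s e, Metric.infDist (β u) (b '' Ici 0) ≤ M * κ (dist (b 0) (β u))) := by
    intro q Q
    by_cases hq : 1 ≤ q ∧ 0 ≤ Q
    · obtain ⟨D, hD, hray⟩ := ray_close hX hκ hb hS hq.1 hq.2
      obtain ⟨M, hM, h⟩ := qg_close hκ hb hq.1 hq.2 hD hray
      exact ⟨M, hM, fun _ _ => h⟩
    · exact ⟨0, le_rfl, fun h1 h2 => absurd ⟨h1, h2⟩ hq⟩
  choose m hm0 hm using h
  refine ⟨m, hm0, ?_⟩
  intro q Q hq hQ s e hse β hβ hβs hβe u hu
  obtain ⟨p₁, hp₁, h1⟩ := hβs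
  obtain ⟨p₂, hp₂, h2⟩ := hβe
  show Metric.infDist (β u) (b '' Ici 0) ≤ m q Q * κ (dist (b 0) (β u))
  rcases le_total p₁ p₂ with h | h
  · exact hm q Q hq hQ s e hse β hβ p₁ p₂ hp₁ h h1.symm h2.symm u hu
  · have hβ' : IsQuasiGeodesic q Q s e (fun v => β (s + e - v)) := by
      intro v hv w hw
      have := hβ (s + e - v) ⟨by linarith [hv.2], by linarith [hv.1]⟩ (s + e - w)
        ⟨by linarith [hw.2], by linarith [hw.1]⟩
      rwa [show s + e - v - (s + e - w) = -(v - w) by ring, abs_neg] at this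
    have := hm q Q hq hQ s e hse _ hβ' p₂ p₁ hp₂ h (by simp [h2]) (by simp [h1]) (s + e - u)
      ⟨by linarith [hu.2], by linarith [hu.1]⟩
    simpa using this


end Final

end Pool.Agent.SublinMorse
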